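import Mathlib
import Pool.Agent.H95.Sgr.Basic
import Pool.Agent.H96.Sing.Defs

/-!
Singer's difference sets: for every prime power `q` and every `m ≥ 3` a difference set with
parameters `((q^m-1)/(q-1), (q^(m-1)-1)/(q-1), (q^(m-2)-1)/(q-1))`.
-/

namespace Pool.Agent.H10.Sgr

open Finset Module Pool.Agent.H95.Sgr Pool.Agent.H96.Sing

lemma vv_mul (m q : ℕ) (hq : 1 ≤ q) : (q - 1) * vv m q = q ^ m - 1 := by
  unfold vv
  have h1 : (q - 1) * ∑ i ∈ range m, q ^ i + 1 = q ^ m := by
    obtain ⟨a, rfl⟩ := Nat.exists_eq_add_of_le hq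
    rw [Nat.add_sub_cancel_left, mul_comm, add_comm 1 a]
    exact geom_sum_mul_add a m
  omega

section

variable {K L : Type} [Field K] [Field L] [Finite K] [Finite L] [Algebra K L]

/-- the scalars -/
def U (K L : Type) [Field K] [Field L] [Algebra K L] : Subgroup Lˣ :=
  (Units.map (algebraMap K L : K →* L)).range

omit [Finite K] [Finite L] in
lemma card_U : Nat.card (U K L) = Nat.card K - 1 := by
  have hinj : Function.Injective (Units.map (algebraMap K L : K →* L)) :=
    Units.map_injective (algebraMap K L).injective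
  have h : Nat.card Kˣ = Nat.card (U K L) :=
    Nat.card_congr (MonoidHom.ofInjective hinj).toEquiv
  rw [← h, Nat.card_units]

/-- the classes of the nonzero elements of a subspace -/
def T (W : Submodule K L) : Set (Lˣ ⧸ U K L) := {g | ∃ u : Lˣ, (u : L) ∈ W ∧ (u : Lˣ ⧸ U K L) = g}

omit [Finite K] [Finite L] in
lemma mem_T (W : Submodule K L) (u : Lˣ) : (u : Lˣ ⧸ U K L) ∈ T W ↔ (u : L) ∈ W := by
  constructor
  · rintro ⟨w, hw, h⟩
    obtain ⟨c, hc⟩ := QuotientGroup.eq.1 h
    have h1 : (u : L) = (c : K) • (w : L) := by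
      have h2 : u = w * Units.map (algebraMap K L : K →* L) c := by rw [hc]; group
      rw [h2, Algebra.smul_def, mul_comm]
      rfl
    rw [h1]
    exact W.smul_mem _ hw
  · intro h
    exact ⟨u, h, rfl⟩

omit [Finite K] in
lemma card_T (W : Submodule K L) : (Nat.card K - 1) * Nat.card (T W) = Nat.card K ^ finrank K W - 1 := by
  have e1 : QuotientGroup.mk ⁻¹' (T W) = {u : Lˣ | (u : L) ∈ W} := by
    ext u
    exact mem_T W u
  have e2 := Nat.card_congr (QuotientGroup.preimageMkEquivSubgroupProdSet (U K L) (T W))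
  rw [Nat.card_prod, card_U, e1] at e2
  rw [← e2]
  have e3 : Nat.card W = Nat.card K ^ finrank K W := Module.natCard_eq_pow_finrank
  rw [← e3]
  have e4 : Nat.card {u : Lˣ | (u : L) ∈ W} = Nat.card {w : W // w ≠ 0} := by
    apply Nat.card_congr
    refine Equiv.ofBijective (fun u => ⟨⟨(u.1 : L), u.2⟩, ?_⟩) ⟨?_, ?_⟩
    · intro h
      exact u.1.ne_zero (congrArg Subtype.val h)
    · intro a b hab
      have : (a.1 : L) = (b.1 : L) := congrArg (fun z => ((z.1 : W) : L)) hab
      exact Subtype.ext (Units.ext this)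
    · rintro ⟨⟨w, hw⟩, h0⟩
      have h1 : w ≠ 0 := fun h => h0 (Subtype.ext h)
      exact ⟨⟨Units.mk0 w h1, hw⟩, rfl⟩
  rw [e4]
  classical
  have : Fintype W := Fintype.ofFinite W
  rw [Nat.card_eq_fintype_card, Nat.card_eq_fintype_card, Fintype.card_subtype_compl,
    Fintype.card_subtype_eq]

/-- the difference set: the classes of a hyperplane -/
theorem singer_field (m : ℕ) (hm : 3 ≤ m) (hd : finrank K L = m) :
    ∃ (G : Type) (_ : Group G) (D : Finset G), Nat.card G = vv m (Nat.card K) ∧
      D.card = vv (m-1) (Nat.card K) ∧ IsDifferenceSet G D (vv (m-2) (Nat.card K)) := by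
  classical
  have hq : 1 < Nat.card K := Finite.one_lt_card
  have cancel : ∀ a b : ℕ, (Nat.card K - 1) * a = (Nat.card K - 1) * b → a = b := fun a b h =>
    Nat.eq_of_mul_eq_mul_left (by omega) h
  obtain ⟨φ, hφ⟩ : ∃ φ : Module.Dual K L, φ 1 ≠ 0 := by
    by_contra hcon
    push Not at hcon
    exact one_ne_zero ((Module.forall_dual_apply_eq_zero_iff K (1 : L)).mp hcon)
  have : Finite (Lˣ ⧸ U K L) := inferInstance
  have : Fintype (Lˣ ⧸ U K L) := Fintype.ofFinite _
  refine ⟨Lˣ ⧸ U K L, inferInstance, univ.filter (fun g => g ∈ T (LinearMap.ker φ)), ?_, ?_, ?_⟩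
  · apply cancel
    have h1 := Subgroup.card_eq_card_quotient_mul_card_subgroup (U K L)
    rw [vv_mul _ _ hq.le, mul_comm, ← card_U (K := K) (L := L), ← h1, Nat.card_units,
      Module.natCard_eq_pow_finrank (K := K) (V := L), hd]
  · apply cancel
    have h1 : finrank K (LinearMap.ker φ) = m - 1 := by
      have h2 := LinearMap.finrank_range_add_finrank_ker φ
      have h3 : LinearMap.range φ = ⊤ := by
        apply LinearMap.range_eq_top.2
        apply LinearMap.surjective
        intro h
        rw [h] at hφ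
        exact hφ rfl
      rw [h3, finrank_top, Module.finrank_self, hd] at h2
      omega
    have h4 : Nat.card (T (LinearMap.ker φ)) =
        (univ.filter (fun g => g ∈ T (LinearMap.ker φ))).card := by
      rw [← Fintype.card_subtype, ← Nat.card_eq_fintype_card]
    rw [vv_mul _ _ hq.le, ← h1, ← card_T, h4]
  · intro g hg
    obtain ⟨a, rfl⟩ := QuotientGroup.mk_surjective g
    have haK : ∀ c : K, (a : L) ≠ algebraMap K L c := by
      intro c hc
      have hc0 : c ≠ 0 := by
        rintro rfl
        rw [map_zero] at hc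
        exact a.ne_zero hc
      apply hg
      rw [QuotientGroup.eq_one_iff]
      exact ⟨Units.mk0 c hc0, Units.ext hc.symm⟩
    set S : L →ₗ[K] (K × K) := φ.prod (φ ∘ₗ (LinearMap.mulLeft K (a : L))) with hS
    have hSapp : ∀ x, S x = (φ x, φ (a * x)) := fun x => rfl
    have hsurj : LinearMap.range S = ⊤ := by
      by_contra hne
      obtain ⟨f, hf0, hf⟩ := Submodule.exists_le_ker_of_lt_top _ (lt_top_iff_ne_top.mpr hne)
      set α := f (1, 0) with hα
      set β := f (0, 1) with hβ
      have hfx : ∀ x y : K, f (x, y) = x * α + y * β := by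
        intro x y
        have : ((x, y) : K × K) = x • (1, 0) + y • (0, 1) := by ext <;> simp
        rw [this, map_add, map_smul, map_smul, smul_eq_mul, smul_eq_mul]
      have h1 : ∀ x, φ ((algebraMap K L α + algebraMap K L β * a) * x) = 0 := by
        intro x
        have h2 : S x ∈ LinearMap.ker f := hf ⟨x, rfl⟩
        rw [LinearMap.mem_ker, hSapp, hfx] at h2
        have h3 : (algebraMap K L α + algebraMap K L β * a) * x = α • x + β • (a * x) := by
          rw [Algebra.smul_def, Algebra.smul_def]; ring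
        rw [h3, map_add, map_smul, map_smul, smul_eq_mul, smul_eq_mul, mul_comm α, mul_comm β]
        exact h2
      have h4 : algebraMap K L α + algebraMap K L β * a = 0 := by
        by_contra hne
        have := h1 (algebraMap K L α + algebraMap K L β * a)⁻¹
        rw [mul_inv_cancel₀ hne] at this
        exact hφ this
      by_cases hβ0 : β = 0
      · have hα0 : α = 0 := by
          rw [hβ0, map_zero, zero_mul, add_zero] at h4
          exact (map_eq_zero _).mp h4
        apply hf0
        apply LinearMap.ext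
        rintro ⟨x, y⟩
        rw [hfx, hα0, hβ0]; simp
      · apply haK (-α * β⁻¹)
        have hβ1 : algebraMap K L β ≠ 0 := (map_ne_zero _).mpr hβ0
        rw [map_mul, map_neg, map_inv₀]
        field_simp
        linear_combination h4
    have hker : finrank K (LinearMap.ker S) = m - 2 := by
      have h1 := LinearMap.finrank_range_add_finrank_ker S
      rw [hsurj, finrank_top, hd, Module.finrank_prod, Module.finrank_self] at h1
      omega
    apply cancel
    rw [vv_mul _ _ hq.le, ← hker, ← card_T]
    congr 1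
    rw [← Nat.card_coe_set_eq]
    apply Nat.card_congr
    refine Equiv.ofBijective (fun x => ⟨x.1.2, ?_⟩) ⟨?_, ?_⟩
    · obtain ⟨⟨x1, x2⟩, h1, h2, h3⟩ := x
      obtain ⟨u, rfl⟩ := QuotientGroup.mk_surjective x2
      have h4 : x1 = ((a * u : Lˣ) : Lˣ ⧸ U K L) := by
        rw [QuotientGroup.mk_mul, ← h3, inv_mul_cancel_right]
      subst h4
      simp only [mem_filter, mem_univ, true_and] at h1 h2
      rw [mem_T] at h1 h2 ⊢
      rw [LinearMap.mem_ker] at h1 h2 ⊢
      rw [Units.val_mul] at h1
      rw [hSapp, h1, h2]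
      rfl
    · rintro ⟨⟨x1, x2⟩, h1, h2, h3⟩ ⟨⟨y1, y2⟩, h4, h5, h6⟩ h
      have h7 : x2 = y2 := congrArg Subtype.val h
      subst h7
      have h8 : x1 = y1 := by
        have : x1 * x2⁻¹ = y1 * x2⁻¹ := h3.trans h6.symm
        exact mul_right_cancel this
      subst h8
      rfl
    · rintro ⟨y, u, hu, rfl⟩
      rw [LinearMap.mem_ker, hSapp, Prod.mk_eq_zero] at hu
      refine ⟨⟨⟨((a * u : Lˣ) : Lˣ ⧸ U K L), (u : Lˣ ⧸ U K L)⟩, ?_, ?_, ?_⟩, rfl⟩
      · simp only [mem_filter, mem_univ, true_and]
        rw [mem_T, LinearMap.mem_ker, Units.val_mul]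
        exact hu.2
      · simp only [mem_filter, mem_univ, true_and]
        rw [mem_T, LinearMap.mem_ker]
        exact hu.1
      · rw [QuotientGroup.mk_mul, mul_inv_cancel_right]

end

/-- D1': Singer difference sets for prime powers -/
theorem singer_primePow (q m : ℕ) (hq : IsPrimePow q) (hm : 3 ≤ m) :
    ∃ (G : Type) (_ : Group G) (D : Finset G), Nat.card G = vv m q ∧ D.card = vv (m-1) q ∧
      IsDifferenceSet G D (vv (m-2) q) := by
  obtain ⟨p, n, hp, hn, rfl⟩ := hq
  have hp' : p.Prime := hp.nat_prime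
  have : Fact p.Prime := ⟨hp'⟩
  have hm0 : NeZero m := ⟨by omega⟩
  have hfin : Finite (GaloisField p n) := by
    apply Nat.finite_of_card_ne_zero
    rw [GaloisField.card p n (by omega)]
    exact pow_ne_zero _ hp'.ne_zero
  have h := singer_field (K := GaloisField p n) (L := FiniteField.Extension (GaloisField p n) p m)
    m hm (FiniteField.finrank_extension (GaloisField p n) p m)
  rwa [GaloisField.card p n (by omega)] at h

/-- D1: Singer difference sets (`p` prime is enough; prime powers welcome) -/
theorem singer (p m : ℕ) (hp : p.Prime) (hm : 3 ≤ m) :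
    ∃ (G : Type) (_ : Group G) (D : Finset G), Nat.card G = vv m p ∧ D.card = vv (m-1) p ∧
      IsDifferenceSet G D (vv (m-2) p) :=
  singer_primePow p m hp.isPrimePow hm

end Pool.Agent.H10.Sgr
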